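import Pool.Agent.helper50.BS.SpecU

/-!
# bs: UB8 (helper77)
-/

set_option autoImplicit false

noncomputable section

namespace Pool.Agent.helper50.BT

open Pool.Agent.helper81.PL

theorem UB8 : UB8_stmt := by
  intro M n k l T L r r' h h'
  refine T.ext r r' ?_
  intro a c j ha hc hj
  rw [← h.2.2 a c j ha hc hj, ← h'.2.2 a c j ha hc hj]

end Pool.Agent.helper50.BT

end
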