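import Pool.Agent.helper73.BS.Spec2

/-!
# Project bs, row HZ: the block group is Zariski dense
-/

set_option autoImplicit false

namespace Pool.Agent.BS

open Matrix Module Pool.Agent.UG Pool.Agent.H48SL Pool.Agent.SHL

/-- the value of a polynomial at the block -/
theorem HZ_eval {n : ℕ} (P : MvPolynomial (Fin n × Fin n) ℤ) (s : SLZ n) (t : SLZ (n + 1))
    (h : dn (qg t) = qg s) :
    MvPolynomial.eval (fun x : Fin (n + 1) × Fin (n + 1) => (t : Matrix _ _ ℤ) x.1 x.2)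
      (MvPolynomial.rename (fun x : Fin n × Fin n => (x.1.succ, x.2.succ)) P) =
    MvPolynomial.eval (fun x : Fin n × Fin n => (s : Matrix _ _ ℤ) x.1 x.2) P := by
  rw [MvPolynomial.eval_rename]
  congr 1
  congr 1
  funext x
  show (t : Matrix _ _ ℤ) x.1.succ x.2.succ = (s : Matrix _ _ ℤ) x.1 x.2
  have h1 := congrFun (congrFun h x.1) x.2
  rw [dn_apply, qg_apply, qg_apply] at h1
  exact_mod_cast h1

theorem HZ : HZ_stmt := by
  intro n H hSt P hP g
  obtain ⟨t, ht, htg⟩ := exists_up g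
  rw [← HZ_eval P g t htg]
  apply hSt ht (fun t => MvPolynomial.eval
    (fun x : Fin (n + 1) × Fin (n + 1) => (t : Matrix _ _ ℤ) x.1 x.2)
      (MvPolynomial.rename (fun x : Fin n × Fin n => (x.1.succ, x.2.succ)) P)) ⟨_, fun _ => rfl⟩
  intro h hh
  obtain ⟨hH, hS⟩ := Subgroup.mem_inf.1 hh
  have h2 : dn (qg h) = qg (bl h hS) := (qg_bl h hS).symm
  show MvPolynomial.eval (fun x : Fin (n + 1) × Fin (n + 1) => (h : Matrix _ _ ℤ) x.1 x.2)
      (MvPolynomial.rename (fun x : Fin n × Fin n => (x.1.succ, x.2.succ)) P) = 0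
  rw [HZ_eval P (bl h hS) h h2]
  apply hP
  rw [mem_Hb]
  exact ⟨h, hH, hS, h2⟩

end Pool.Agent.BS
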